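import Mathlib

set_option autoImplicit false

namespace Pool.Agent.H7aef

open Finset

/-- `x` is a sum of `k` members of `S` -/
def Rep (S : Set ℤ) : ℕ → ℤ → Prop
  | 0, x => x = 0
  | k + 1, x => ∃ s ∈ S, Rep S k (x - s)

lemma Rep_mono {S T : Set ℤ} (h : S ⊆ T) : ∀ {k : ℕ} {x : ℤ}, Rep S k x → Rep T k x
  | 0, _, hx => hx
  | _ + 1, _, ⟨s, hs, hx⟩ => ⟨s, h hs, Rep_mono h hx⟩

lemma Rep_drop {S : Set ℤ} : ∀ {k : ℕ} {x : ℤ}, Rep S k x → ∃ k' ≤ k, Rep (S \ {0}) k' x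
  | 0, _, hx => ⟨0, le_rfl, hx⟩
  | k + 1, x, ⟨s, hs, hx⟩ => by
    obtain ⟨k', hk, h⟩ := Rep_drop hx
    by_cases h0 : s = 0
    · subst h0
      exact ⟨k', by omega, by simpa using h⟩
    · exact ⟨k' + 1, by omega, s, ⟨hs, h0⟩, h⟩

lemma Rep_bound {S : Set ℤ} {B : ℤ} (hB : ∀ s ∈ S, |s| ≤ B) :
    ∀ {k : ℕ} {x : ℤ}, Rep S k x → |x| ≤ k * B
  | 0, _, hx => by rw [show _ = (0 : ℤ) from hx]; simp
  | k + 1, x, ⟨s, hs, hx⟩ => by
    have h1 := Rep_bound hB hx
    have h2 := hB s hs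
    have h3 := abs_add_le (x - s) s
    rw [sub_add_cancel] at h3
    push_cast; linarith

lemma Rep_Icc {L : ℤ} (hL : 0 ≤ L) : ∀ (k : ℕ) (x : ℤ), |x| ≤ k * L → Rep (Set.Icc (-L) L) k x
  | 0, x, hx => by simpa [Rep] using hx
  | k + 1, x, hx => by
    push_cast at hx
    have hk : 0 ≤ (k : ℤ) * L := by positivity
    rw [abs_le] at hx
    rcases le_total x (-L) with h1 | h1
    · exact ⟨-L, ⟨le_rfl, by omega⟩, Rep_Icc hL k _ (abs_le.mpr ⟨by linarith, by linarith⟩)⟩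
    rcases le_total x L with h2 | h2
    · exact ⟨x, ⟨h1, h2⟩, Rep_Icc hL k _ (by simpa using hk)⟩
    · exact ⟨L, ⟨by omega, le_rfl⟩, Rep_Icc hL k _ (abs_le.mpr ⟨by linarith, by linarith⟩)⟩

lemma Rep_fun {S : Set ℤ} : ∀ {k : ℕ} {x : ℤ}, Rep S k x →
    ∃ ρ : ℕ → ℤ, (∀ i < k, ρ i ∈ S) ∧ ∑ i ∈ range k, ρ i = x
  | 0, _, hx => ⟨0, by simp, by simpa using hx.symm⟩
  | k + 1, x, ⟨s, hs, hx⟩ => by
    obtain ⟨ρ, h1, h2⟩ := Rep_fun hx
    refine ⟨fun i => if i = k then s else ρ i, fun i hi => ?_, ?_⟩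
    · by_cases h : i = k
      · simp [h, hs]
      · simpa [h] using h1 i (by omega)
    · rw [sum_range_succ, sum_congr rfl (g := ρ) (fun i hi => by
        have := mem_range.mp hi
        simp [this.ne]), h2]
      simp

lemma Rep_sum {S : Set ℤ} (b : ℕ → ℤ) : ∀ k : ℕ, (∀ i < k, b i ∈ S) → Rep S k (∑ i ∈ range k, b i)
  | 0, _ => by simp [Rep]
  | k + 1, h => ⟨b k, h k (by omega), by
      rw [sum_range_succ, add_sub_cancel_right]; exact Rep_sum b k fun i hi => h i (by omega)⟩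

/-- a periodic set of residues of covering number `h` whose shorter sums miss `W` -/
lemma res (h : ℕ) (W : Finset ℤ) (hW : ∀ w ∈ W, w ≠ 0) : ∃ (M : ℤ) (R : Set ℤ), 0 < M ∧
    (∀ x ∈ R, ∀ t, x + M * t ∈ R) ∧ 0 ∈ R ∧ (∀ x ∈ R, -x ∈ R) ∧
    (∀ k < h, ∀ x, Rep R k x → ∀ w ∈ W, ¬ M ∣ w - x) ∧ (∀ n, ∃ x, Rep R h x ∧ M ∣ n - x) := by
  classical
  induction W using Finset.induction_on with
  | empty =>
    refine ⟨1, Set.univ, one_pos, by simp, by simp, by simp, by simp, fun n => ⟨_,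
      Rep_sum 0 h (by simp), one_dvd _⟩⟩
  | insert w W _ ih =>
    obtain ⟨M, R, hM, h1, h2, h3, h4, h5⟩ := ih fun v hv => hW v (mem_insert_of_mem hv)
    have hw : w ≠ 0 := hW w (mem_insert_self _ _)
    obtain ⟨L, hL⟩ : ∃ L, L = M * w ^ 2 := ⟨_, rfl⟩
    have hL0 : 0 < L := by rw [hL]; positivity
    obtain ⟨p, hp⟩ : ∃ p, p = 2 * (h * L) + 1 := ⟨_, rfl⟩
    have hp0 : 0 < p := by rw [hp]; positivity
    refine ⟨M * p, {x | x ∈ R ∧ ∃ y, |y| ≤ L ∧ p ∣ x - 2 * w * y}, by positivity, ?_, ?_, ?_, ?_, ?_⟩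
    · rintro x ⟨a, y, b, c, hc⟩ t
      exact ⟨by rw [mul_assoc]; exact h1 x a _, y, b, c + M * t, by linear_combination hc⟩
    · exact ⟨h2, 0, by simpa using hL0.le, by simp⟩
    · rintro x ⟨a, y, b, c, hc⟩
      exact ⟨h3 x a, -y, by simpa using b, -c, by linear_combination -hc⟩
    · intro k hk x hx v hv hd
      rcases mem_insert.mp hv with rfl | hv
      · have key : ∀ (k : ℕ) (x : ℤ), Rep {x | x ∈ R ∧ ∃ y, |y| ≤ L ∧ p ∣ x - 2 * v * y} k x →
            ∃ Y, |Y| ≤ k * L ∧ p ∣ x - 2 * v * Y := by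
          intro k
          induction k with
          | zero => intro x hx; exact ⟨0, by simp, by rw [show x = 0 from hx]; simp⟩
          | succ k ih =>
            rintro x ⟨s, ⟨-, y, b, c, hc⟩, hx⟩
            obtain ⟨Y, a1, d, hd⟩ := ih _ hx
            refine ⟨Y + y, ?_, d + c, by linear_combination hd + hc⟩
            have := abs_add_le Y y
            push_cast; linarith
        obtain ⟨Y, a1, d, hd1⟩ := key k x hx
        obtain ⟨e, he⟩ := hd
        have a2 : p ∣ 1 - 2 * Y := by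
          refine ⟨(1 - 2 * Y) - 2 * h * M * v * (M * e + d), ?_⟩
          have : v * (1 - 2 * Y) = p * (M * e + d) := by linear_combination he + hd1
          linear_combination (-2 * h * M * v) * this - (1 - 2 * Y) * hp
            - 2 * h * (1 - 2 * Y) * hL
        have a3 : (k : ℤ) * L + L ≤ h * L := by
          have : (k : ℤ) + 1 ≤ h := by exact_mod_cast hk
          nlinarith
        rw [abs_le] at a1
        have := Int.eq_zero_of_abs_lt_dvd a2 (abs_lt.mpr ⟨by linarith, by linarith⟩)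
        omega
      · exact h4 k hk x (Rep_mono (fun _ a => a.1) hx) v hv ((Dvd.intro _ rfl).trans hd)
    · intro n
      obtain ⟨x, a1, e, he⟩ := h5 n
      have key : ∀ (k : ℕ) (x Y : ℤ), Rep R k x → Rep (Set.Icc (-L) L) k Y →
          Rep {x | x ∈ R ∧ ∃ y, |y| ≤ L ∧ p ∣ x - 2 * w * y} k (x * p + (1 - p) * (2 * w * Y)) := by
        intro k
        induction k with
        | zero => intro x Y hx hY; rw [show x = 0 from hx, show Y = 0 from hY]; simp [Rep]
        | succ k ih =>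
          rintro x Y ⟨s, hs, hx⟩ ⟨y, hy, hY⟩
          refine ⟨s * p + (1 - p) * (2 * w * y), ⟨?_, y, abs_le.mpr hy, s - 2 * w * y, by ring⟩, ?_⟩
          · have := h1 s hs (2 * h * w ^ 2 * (s - 2 * w * y))
            convert this using 1
            rw [hp, hL]; ring
          · convert ih _ _ hx hY using 1
            ring
      have b1 := Int.emod_nonneg (-(h * M * w * n) + h * L) hp0.ne'
      have b2 := Int.emod_lt_of_pos (-(h * M * w * n) + h * L) hp0
      have b3 := Int.mul_ediv_add_emod (-(h * M * w * n) + h * L) p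
      generalize (-(h * M * w * n) + h * L) / p = q at b3
      generalize (-(h * M * w * n) + h * L) % p = z at b1 b2 b3
      refine ⟨_, key h x (z - h * L) a1 (Rep_Icc hL0.le h _ (abs_le.mpr ⟨by linarith, by linarith⟩)),
        e - 2 * h * w ^ 2 * (n + 2 * w * q), ?_⟩
      have c1 : 2 * w * (z - h * L) = n - p * (n + 2 * w * q) := by
        linear_combination 2 * w * b3 + n * hp + 2 * h * n * hL
      rw [c1]
      linear_combination p * he - p * (n + 2 * w * q) * hp - 2 * h * p * (n + 2 * w * q) * hL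

lemma digits_zero (G : ℤ) : ∀ (h : ℕ) (d : ℕ → ℤ), (∀ i < h, |d i| < G) →
    ∑ i ∈ range h, d i * G ^ i = 0 → ∀ i < h, d i = 0
  | 0, _, _, _ => by simp
  | h + 1, d, h1, h2 => by
    have hG : 0 < G := lt_of_le_of_lt (abs_nonneg _) (h1 0 (by omega))
    rw [sum_range_succ'] at h2
    have e : ∑ i ∈ range h, d (i + 1) * G ^ (i + 1) = G * ∑ i ∈ range h, d (i + 1) * G ^ i := by
      rw [mul_sum]; exact sum_congr rfl fun i _ => by ring
    rw [e] at h2
    have h0 : d 0 = 0 := Int.eq_zero_of_abs_lt_dvd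
      ⟨-∑ i ∈ range h, d (i + 1) * G ^ i, by linear_combination h2⟩ (h1 0 (by omega))
    rw [h0, zero_mul, add_zero] at h2
    have := digits_zero G h (fun i => d (i + 1)) (fun i hi => h1 _ (by omega))
      ((mul_eq_zero.mp h2).resolve_left hG.ne')
    intro i hi
    cases i with
    | zero => exact h0
    | succ i => exact this i (by omega)

lemma decomp (S : Set ℤ) (h : ℕ) (b : ℕ → ℤ) : ∀ (k : ℕ) (x : ℤ),
    Rep (S ∪ {y | ∃ i < h, y = b i ∨ y = -b i}) k x → ∃ (c : ℕ → ℤ) (k' : ℕ) (s : ℤ), Rep S k' s ∧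
      x = s + ∑ i ∈ range h, c i * b i ∧ k' + ∑ i ∈ range h, |c i| ≤ k
  | 0, x, hx => ⟨0, 0, 0, rfl, by simpa using (show x = 0 from hx), by simp⟩
  | k + 1, x, ⟨y, hy, hx⟩ => by
    obtain ⟨c, k', s, h1, h2, h3⟩ := decomp S h b k _ hx
    rcases hy with hy | ⟨j, hj, hy⟩
    · exact ⟨c, k' + 1, s + y, ⟨y, hy, by simpa using h1⟩, by linarith, by push_cast; linarith⟩
    · obtain ⟨ε, e1, e2⟩ : ∃ ε : ℤ, |ε| = 1 ∧ y = ε * b j := by
        rcases hy with hy | hy
        · exact ⟨1, by simp, by simpa using hy⟩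
        · exact ⟨-1, by simp, by simpa using hy⟩
      refine ⟨fun i => c i + if i = j then ε else 0, k', s, h1, ?_, ?_⟩
      · simp only [add_mul, sum_add_distrib, ite_mul, zero_mul, sum_ite_eq', mem_range, hj, if_true]
        linarith
      · have : ∑ i ∈ range h, |c i + if i = j then ε else 0| ≤
            ∑ i ∈ range h, (|c i| + if i = j then 1 else 0) := sum_le_sum fun i _ => by
          refine (abs_add_le _ _).trans ?_
          split_ifs <;> simp [e1]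
        simp only [sum_add_distrib, sum_ite_eq', mem_range, hj, if_true] at this
        push_cast; linarith

/-- adding a generic `h`-tuple with sum `n` -/
lemma step (h : ℕ) (hh : 1 ≤ h) (W : Finset ℤ) (hW : ∀ w ∈ W, -w ∈ W) (M : ℤ) (R : Set ℤ)
    (hM : 0 < M) (h1 : ∀ x ∈ R, ∀ t, x + M * t ∈ R) (h3 : ∀ x ∈ R, -x ∈ R)
    (h5 : ∀ n, ∃ x, Rep R h x ∧ M ∣ n - x) (S : Set ℤ) (hS : S.Finite) (hSs : ∀ x ∈ S, -x ∈ S)
    (hSR : S ⊆ R) (hg : ∀ k ≤ h, ∀ w ∈ W, ¬ Rep S k w) (n : ℤ) :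
    ∃ T : Set ℤ, (T.Finite ∧ (∀ x ∈ T, -x ∈ T) ∧ T ⊆ R ∧ (∀ k ≤ h, ∀ w ∈ W, ¬ Rep T k w)) ∧
      S ⊆ T ∧ (n ∉ W → Rep T h n) := by
  by_cases hn : n ∈ W
  · exact ⟨S, ⟨hS, hSs, hSR, hg⟩, le_rfl, fun h => absurd hn h⟩
  have hn' : Rep R h n := by
    obtain ⟨x, a, t, ht⟩ := h5 n
    obtain ⟨k, rfl⟩ : ∃ k, h = k + 1 := ⟨h - 1, by omega⟩
    obtain ⟨s, hs, a⟩ := a
    exact ⟨s + M * t, h1 s hs t, by convert a using 1; linarith⟩
  obtain ⟨ρ, hρ, hρs⟩ := Rep_fun hn'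
  obtain ⟨B, hB⟩ : ∃ B : ℤ, ∀ s ∈ S, |s| ≤ B := by
    obtain ⟨B, hB⟩ := (hS.image fun s => |s|).bddAbove
    exact ⟨B, fun s hs => hB ⟨s, hs, rfl⟩⟩
  obtain ⟨G, hG⟩ : ∃ G : ℤ, G = h * h + h + 1 := ⟨_, rfl⟩
  obtain ⟨X, hX⟩ : ∃ X : ℤ, X = h * |B| + h * ∑ i ∈ range h, |ρ i| + ∑ w ∈ W, |w| + 1 := ⟨_, rfl⟩
  obtain ⟨g, hg1, hg2⟩ : ∃ g : ℕ → ℤ, ∑ i ∈ range h, g i = 0 ∧ ∀ c : ℕ → ℤ,
      ∑ i ∈ range h, |c i| ≤ h → ∑ i ∈ range h, c i * g i = 0 → ∀ i < h, c i = c 0 := by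
    refine ⟨fun i => h * G ^ i - ∑ j ∈ range h, G ^ j, ?_, fun c hc h0 => ?_⟩
    · rw [sum_sub_distrib, ← mul_sum]; simp
    · have hh0 : (0 : ℤ) < h := by exact_mod_cast hh
      have := digits_zero G h (fun i => h * c i - ∑ j ∈ range h, c j) (fun i hi => by
        have a1 : |c i| ≤ h :=
          (single_le_sum (fun j _ => abs_nonneg (c j)) (mem_range.mpr hi)).trans hc
        have a2 := (abs_sum_le_sum_abs c (range h)).trans hc
        have a3 := abs_sub (h * c i) (∑ j ∈ range h, c j)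
        rw [abs_mul, abs_of_pos hh0] at a3
        nlinarith) (by
        simp only [mul_sub, sub_mul, sum_sub_distrib, ← sum_mul, ← mul_sum] at h0 ⊢
        rw [← h0]
        congr 1
        exact sum_congr rfl fun i _ => by ring)
      intro i hi
      have a1 := this i hi
      have a2 := this 0 (by omega)
      exact mul_left_cancel₀ hh0.ne' (by linarith)
  set b : ℕ → ℤ := fun i => ρ i + M * (X * g i) with hb
  have hbs : ∑ i ∈ range h, b i = n := by
    simp only [hb, sum_add_distrib, ← mul_sum, hg1, hρs]; ring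
  refine ⟨S ∪ {y | ∃ i < h, y = b i ∨ y = -b i}, ⟨?_, ?_, ?_, ?_⟩, Set.subset_union_left,
    fun _ => hbs ▸ Rep_sum b h fun i hi => Or.inr ⟨i, hi, Or.inl rfl⟩⟩
  · refine hS.union (((Set.finite_lt_nat h).image b).union
      ((Set.finite_lt_nat h).image fun i => -b i)|>.subset ?_)
    rintro y ⟨i, hi, rfl | rfl⟩
    · exact Or.inl ⟨i, hi, rfl⟩
    · exact Or.inr ⟨i, hi, rfl⟩
  · rintro x (hx | ⟨i, hi, rfl | rfl⟩)
    · exact Or.inl (hSs x hx)
    · exact Or.inr ⟨i, hi, Or.inr rfl⟩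
    · exact Or.inr ⟨i, hi, Or.inl (neg_neg _)⟩
  · rintro x (hx | ⟨i, hi, rfl | rfl⟩)
    · exact hSR hx
    · exact h1 _ (hρ i hi) _
    · exact h3 _ (h1 _ (hρ i hi) _)
  · intro k hk w hw hr
    obtain ⟨c, k', s, a1, a2, a3⟩ := decomp S h b k w hr
    have hk1 : (k : ℤ) ≤ h := by exact_mod_cast hk
    have hk0 : (0 : ℤ) ≤ k' := by positivity
    have hc0 : 0 ≤ ∑ i ∈ range h, |c i| := sum_nonneg fun i _ => abs_nonneg _
    have hc : ∑ i ∈ range h, |c i| ≤ h := by linarith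
    by_cases h0 : ∑ i ∈ range h, c i * g i = 0
    · have hcc := hg2 c hc h0
      have e1 : ∑ i ∈ range h, c i * b i = c 0 * n := by
        rw [← hbs, mul_sum]; exact sum_congr rfl fun i hi => by rw [hcc i (mem_range.mp hi)]
      have e2 : ∑ i ∈ range h, |c i| = h * |c 0| := by
        rw [sum_congr rfl (g := fun _ => |c 0|) fun i hi => by rw [hcc i (mem_range.mp hi)]]
        simp
      rw [e1] at a2
      rw [e2] at a3
      by_cases hz : c 0 = 0
      · rw [hz] at a2 a3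
        simp only [zero_mul, add_zero, abs_zero, mul_zero] at a2 a3
        exact hg k' (by omega) w hw (a2 ▸ a1)
      · have b1 : 1 ≤ |c 0| := Int.one_le_abs hz
        have hh0 : (1 : ℤ) ≤ h := by exact_mod_cast hh
        have b2 : |c 0| = 1 := by nlinarith
        have b3 : k' = 0 := by rw [b2] at a3; omega
        subst b3
        have b4 : s = 0 := a1
        rcases (abs_eq (by norm_num)).mp b2 with b5 | b5
        · rw [b4, b5] at a2
          exact hn (by simpa [a2] using hw)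
        · rw [b4, b5] at a2
          exact hn (by simpa [a2] using hW w hw)
    · have e1 : M * (X * ∑ i ∈ range h, c i * g i) = w - s - ∑ i ∈ range h, c i * ρ i := by
        rw [a2, mul_sum, mul_sum, add_sub_cancel_left, ← sum_sub_distrib]
        exact sum_congr rfl fun i _ => by simp only [hb]; ring
      have b1 : |s| ≤ h * |B| := by
        have := Rep_bound (fun s hs => (hB s hs).trans (le_abs_self B)) a1
        have := abs_nonneg B
        nlinarith
      have b2 : |∑ i ∈ range h, c i * ρ i| ≤ h * ∑ i ∈ range h, |ρ i| := by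
        refine (abs_sum_le_sum_abs _ _).trans ?_
        rw [mul_sum]
        refine sum_le_sum fun i hi => ?_
        rw [abs_mul]
        exact mul_le_mul_of_nonneg_right
          ((single_le_sum (fun j _ => abs_nonneg (c j)) hi).trans hc) (abs_nonneg _)
      have b3 : |w| ≤ ∑ w ∈ W, |w| := single_le_sum (fun j _ => abs_nonneg j) hw
      have b4 : 1 ≤ |∑ i ∈ range h, c i * g i| := Int.one_le_abs h0
      have b5 := abs_sub (w - s) (∑ i ∈ range h, c i * ρ i)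
      have b6 := abs_sub w s
      have hX0 : 0 < X := by
        have := abs_nonneg s
        have := abs_nonneg w
        have := abs_nonneg (∑ i ∈ range h, c i * ρ i)
        linarith
      rw [← e1, abs_mul, abs_mul, abs_of_pos hM, abs_of_pos hX0] at b5
      have b7 : X ≤ X * |∑ i ∈ range h, c i * g i| := le_mul_of_one_le_right hX0.le b4
      have b8 : X * |∑ i ∈ range h, c i * g i| ≤ M * (X * |∑ i ∈ range h, c i * g i|) :=
        le_mul_of_one_le_left (by linarith) hM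
      linarith

/-- a symmetric set containing all multiples of some `M > 0` whose sums of at most `h` members
miss `W` and whose sums of `h` members cover the rest -/
lemma exists_set (h : ℕ) (hh : 1 ≤ h) (W : Finset ℤ) (hW0 : ∀ w ∈ W, w ≠ 0)
    (hW : ∀ w ∈ W, -w ∈ W) : ∃ (M : ℤ) (T : Set ℤ), 0 < M ∧ (∀ t, M * t ∈ T) ∧
      (∀ x ∈ T, -x ∈ T) ∧ (∀ k ≤ h, ∀ w ∈ W, ¬ Rep T k w) ∧ ∀ n ∉ W, Rep T h n := by
  obtain ⟨M, R, hM, h1, h2, h3, h4, h5⟩ := res h W hW0
  have st := fun (S : {S : Set ℤ // S.Finite ∧ (∀ x ∈ S, -x ∈ S) ∧ S ⊆ R ∧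
      (∀ k ≤ h, ∀ w ∈ W, ¬ Rep S k w)}) (n : ℤ) =>
    step h hh W hW M R hM h1 h3 h5 S.1 S.2.1 S.2.2.1 S.2.2.2.1 S.2.2.2.2 n
  choose F hF using st
  obtain ⟨e, he⟩ := exists_surjective_nat ℤ
  let f : ℕ → {S : Set ℤ // S.Finite ∧ (∀ x ∈ S, -x ∈ S) ∧ S ⊆ R ∧
      (∀ k ≤ h, ∀ w ∈ W, ¬ Rep S k w)} := fun k => Nat.rec ⟨∅, by simp, by simp, by simp, by
        intro k _ w hw hr
        cases k with
        | zero => exact hW0 w hw hr
        | succ k => obtain ⟨s, hs, -⟩ := hr; exact hs⟩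
      (fun k S => ⟨F S (e k), (hF S (e k)).1⟩) k
  have hmono : Monotone fun k => (f k).1 :=
    monotone_nat_of_le_succ fun k => (hF (f k) (e k)).2.1
  refine ⟨M, {x | M ∣ x} ∪ ⋃ k, (f k).1, hM, fun t => Or.inl ⟨t, rfl⟩, ?_, ?_, ?_⟩
  · rintro x (hx | hx)
    · exact Or.inl (Dvd.dvd.neg_right hx)
    · obtain ⟨k, hk⟩ := Set.mem_iUnion.mp hx
      exact Or.inr (Set.mem_iUnion.mpr ⟨k, (f k).2.2.1 x hk⟩)
  · have hTR : {x | M ∣ x} ∪ ⋃ k, (f k).1 ⊆ R := by
      rintro x (⟨t, rfl⟩ | hx)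
      · simpa using h1 0 h2 t
      · obtain ⟨k, hk⟩ := Set.mem_iUnion.mp hx
        exact (f k).2.2.2.1 hk
    have key : ∀ (k : ℕ) (x : ℤ), Rep ({x | M ∣ x} ∪ ⋃ k, (f k).1) k x →
        (∃ j, Rep (f j).1 k x) ∨ ∃ k' < k, ∃ x', Rep R k' x' ∧ M ∣ x - x' := by
      intro k
      induction k with
      | zero => intro x hx; exact Or.inl ⟨0, hx⟩
      | succ k ih =>
        rintro x ⟨s, hs, hx⟩
        rcases hs with hs | hs
        · exact Or.inr ⟨k, by omega, x - s, Rep_mono hTR hx, by simpa using hs⟩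
        · obtain ⟨j, hj⟩ := Set.mem_iUnion.mp hs
          rcases ih _ hx with ⟨i, hi⟩ | ⟨k', a1, x', a2, a3⟩
          · exact Or.inl ⟨max i j, s, hmono (le_max_right i j) hj,
              Rep_mono (hmono (le_max_left i j)) hi⟩
          · refine Or.inr ⟨k' + 1, by omega, x' + s, ⟨s, (f j).2.2.2.1 hj, by simpa using a2⟩, ?_⟩
            convert a3 using 1
            ring
    intro k hk w hw hr
    rcases key k w hr with ⟨j, hj⟩ | ⟨k', a1, x', a2, a3⟩
    · exact (f j).2.2.2.2 k hk w hw hj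
    · exact h4 k' (by omega) x' a2 w hw a3
  · intro n hn
    obtain ⟨k, rfl⟩ := he n
    exact Rep_mono (fun x hx => Or.inr (Set.mem_iUnion.mpr ⟨k + 1, hx⟩))
      ((hF (f k) (e k)).2.2 hn)

end Pool.Agent.H7aef
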